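import Pool.Agent.H680R3.ZP.Stmts

/-! ZP project, task P4b: vanishing of the character sums over effective divisors. -/

set_option autoImplicit false

open FF

namespace H138ZP

open H680ZP
open scoped Classical

variable {k K : Type} [Field k] [Field K] [Algebra k K]

theorem mem_LLp {D : Place k K →₀ ℤ} {f : K} :
    f ∈ LLp D ↔ ∀ P : Place k K, f = 0 ∨ - D P ≤ P.ord f := by
  change (f = 0 ∨ ∀ P : Place k K, - D P ≤ P.ord f) ↔ _
  by_cases hf : f = 0
  · simp [hf]
  · simp [hf]

theorem ddp_add (D E : Place k K →₀ ℤ) : ddp (D + E) = ddp D + ddp E := by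
  unfold ddp
  apply Finsupp.sum_add_index'
  · intro a; simp
  · intro a b₁ b₂; ring

theorem ddp_zero : ddp (0 : Place k K →₀ ℤ) = 0 := by simp [ddp]

theorem ddp_neg (D : Place k K →₀ ℤ) : ddp (-D) = - ddp D := by
  have h := ddp_add D (-D)
  rw [add_neg_cancel, ddp_zero] at h
  linarith

theorem ddp_sub (D E : Place k K →₀ ℤ) : ddp (D - E) = ddp D - ddp E := by
  rw [sub_eq_add_neg, ddp_add, ddp_neg]; ring

theorem ddp_nonneg {D : Place k K →₀ ℤ} (h : ∀ P, 0 ≤ D P) : 0 ≤ ddp D := by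
  unfold ddp Finsupp.sum
  apply Finset.sum_nonneg
  intro P _
  exact mul_nonneg (h P) (by positivity)

/-- pointwise condition -/
theorem v_add (P : Place k K) {f g : K} {n : ℤ} (hf : f = 0 ∨ n ≤ P.ord f)
    (hg : g = 0 ∨ n ≤ P.ord g) : f + g = 0 ∨ n ≤ P.ord (f + g) := by
  by_cases hf0 : f = 0
  · rw [hf0, zero_add]; exact hg
  by_cases hg0 : g = 0
  · rw [hg0, add_zero]; exact hf
  by_cases hfg : f + g = 0
  · exact Or.inl hfg
  · right
    exact (le_min (hf.resolve_left hf0) (hg.resolve_left hg0)).trans (P.ord_add hf0 hg0 hfg)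

theorem v_neg (P : Place k K) {f : K} {n : ℤ} (hf : f = 0 ∨ n ≤ P.ord f) :
    -f = 0 ∨ n ≤ P.ord (-f) := by
  rcases hf with h | h
  · left; rw [h, neg_zero]
  · right; rwa [P.ord_neg]

theorem v_sub (P : Place k K) {f g : K} {n : ℤ} (hf : f = 0 ∨ n ≤ P.ord f)
    (hg : g = 0 ∨ n ≤ P.ord g) : f - g = 0 ∨ n ≤ P.ord (f - g) := by
  rw [sub_eq_add_neg]
  exact v_add P hf (v_neg P hg)

/-- `h` is zero or has order larger than `N` at the places of `S` -/
def HN (S : Finset (Place k K)) (N : ℕ) (h : K) : Prop := ∀ x ∈ S, h = 0 ∨ (N : ℤ) < x.ord h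

theorem HN.ord_one_add {S : Finset (Place k K)} {N : ℕ} {h : K} (hh : HN S N h) {x : Place k K}
    (hx : x ∈ S) : 1 + h ≠ 0 ∧ x.ord (1 + h) = 0 := by
  by_cases h0 : h = 0
  · rw [h0, add_zero]
    exact ⟨one_ne_zero, x.ord_one⟩
  · have h1 := (hh x hx).resolve_left h0
    have h2 := x.ord_add_eq (f := 1) (g := h) one_ne_zero h0 (by rw [x.ord_one]; omega)
    rw [x.ord_one] at h2
    exact h2

theorem HN.inv {S : Finset (Place k K)} {N : ℕ} {h : K} (hh : HN S N h) (h1 : 1 + h ≠ 0) :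
    HN S N ((1 + h)⁻¹ - 1) := by
  intro x hx
  have e : (1 + h)⁻¹ - 1 = -(h * (1 + h)⁻¹) := by
    field_simp
    ring
  by_cases h0 : h = 0
  · left; rw [e, h0]; simp
  · right
    have h2 := (hh x hx).resolve_left h0
    rw [e, x.ord_neg, x.ord_mul h0 (inv_ne_zero h1), x.ord_inv, (hh.ord_one_add hx).2]
    omega

/-- the conductor divisor -/
noncomputable def CS (S : Finset (Place k K)) (N : ℕ) : Place k K →₀ ℤ :=
  Finsupp.onFinset S (fun x => if x ∈ S then (N : ℤ) + 1 else 0) (by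
    intro x hx
    by_contra h
    simp [h] at hx)

theorem CS_mem {S : Finset (Place k K)} {N : ℕ} {x : Place k K} (hx : x ∈ S) :
    CS S N x = (N : ℤ) + 1 := by
  simp [CS, hx]

theorem CS_not_mem {S : Finset (Place k K)} {N : ℕ} {x : Place k K} (hx : x ∉ S) :
    CS S N x = 0 := by
  simp [CS, hx]

/-- elements of the Riemann-Roch space congruent to `1` -/
def GG (S : Finset (Place k K)) (N : ℕ) (D1 : Place k K →₀ ℤ) : Set K :=
  {g | g ∈ LLp D1 ∧ HN S N (g - 1)}

theorem exists_GG [Finite k] {S : Finset (Place k K)} {N : ℕ}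
    (hfd : ∀ D : Place k K →₀ ℤ, FiniteDimensional k (LLp D))
    {γ N0 : ℤ} (hRR : ∀ D : Place k K →₀ ℤ, N0 ≤ ddp D →
      (Module.finrank k (LLp D) : ℤ) = ddp D - γ)
    {D1 : Place k K →₀ ℤ} (hD1 : ∀ x ∈ S, D1 x = 0) (hm : N0 ≤ ddp D1 - ddp (CS S N)) :
    ∃ g, g ∈ GG S N D1 := by
  have hCS : 0 ≤ ddp (CS S N) := by
    apply ddp_nonneg
    intro P
    by_cases hP : P ∈ S
    · rw [CS_mem hP]; positivity
    · rw [CS_not_mem hP]
  set D2 : Place k K →₀ ℤ := D1 ⊔ 0 with hD2
  have hD2' : ∀ P, D2 P = max (D1 P) 0 := fun P => by simp [hD2]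
  have h12 : ddp D1 ≤ ddp D2 := by
    have h : 0 ≤ ddp (D2 - D1) := ddp_nonneg (fun P => by
      rw [Finsupp.sub_apply, hD2']
      have := le_max_left (D1 P) 0
      linarith)
    rw [ddp_sub] at h
    linarith
  have e1 := hRR D1 (by linarith)
  have e2 := hRR D2 (by linarith)
  have e3 := hRR (D2 - CS S N) (by rw [ddp_sub]; linarith)
  have e4 := hRR (D1 - CS S N) (by rw [ddp_sub]; linarith)
  rw [ddp_sub] at e3 e4
  have hVW : LLp D1 ⊓ LLp (D2 - CS S N) = LLp (D1 - CS S N) := by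
    ext f
    rw [Submodule.mem_inf, mem_LLp, mem_LLp, mem_LLp]
    constructor
    · rintro ⟨h1, h2⟩ P
      by_cases hf : f = 0
      · exact Or.inl hf
      · right
        have a1 := (h1 P).resolve_left hf
        have a2 := (h2 P).resolve_left hf
        rw [Finsupp.sub_apply] at a2 ⊢
        by_cases hP : P ∈ S
        · rw [CS_mem hP] at a2 ⊢
          rw [hD2', hD1 P hP, max_self] at a2
          rw [hD1 P hP]
          exact a2
        · rw [CS_not_mem hP]
          simpa using a1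
    · intro h
      refine ⟨fun P => ?_, fun P => ?_⟩
      · rcases h P with h0 | h1
        · exact Or.inl h0
        · right
          rw [Finsupp.sub_apply] at h1
          by_cases hP : P ∈ S
          · rw [CS_mem hP] at h1; omega
          · rw [CS_not_mem hP] at h1; simpa using h1
      · rcases h P with h0 | h1
        · exact Or.inl h0
        · right
          rw [Finsupp.sub_apply] at h1 ⊢
          have := le_max_left (D1 P) 0
          rw [hD2']
          linarith
  have hV2 : LLp D1 ≤ LLp D2 := by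
    intro f hf
    rw [mem_LLp] at hf ⊢
    intro P
    rcases hf P with h0 | h1
    · exact Or.inl h0
    · right
      have := le_max_left (D1 P) 0
      rw [hD2']
      linarith
  have hW2 : LLp (D2 - CS S N) ≤ LLp D2 := by
    intro f hf
    rw [mem_LLp] at hf ⊢
    intro P
    rcases hf P with h0 | h1
    · exact Or.inl h0
    · right
      rw [Finsupp.sub_apply] at h1
      by_cases hP : P ∈ S
      · rw [CS_mem hP] at h1; omega
      · rw [CS_not_mem hP] at h1; linarith
  have i1 := hfd D1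
  have i2 := hfd D2
  have i3 := hfd (D2 - CS S N)
  have hsum := Submodule.finrank_sup_add_finrank_inf_eq (LLp D1) (LLp (D2 - CS S N))
  rw [hVW] at hsum
  have heq : LLp D1 ⊔ LLp (D2 - CS S N) = LLp D2 := by
    apply Submodule.eq_of_le_of_finrank_eq (sup_le hV2 hW2)
    zify at hsum ⊢
    linarith
  have h1mem : (1 : K) ∈ LLp D2 := by
    rw [mem_LLp]
    intro P
    right
    rw [P.ord_one, hD2']
    have := le_max_right (D1 P) 0
    linarith
  rw [← heq, Submodule.mem_sup] at h1mem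
  obtain ⟨g, hg, w, hw, hgw⟩ := h1mem
  refine ⟨g, hg, ?_⟩
  intro x hx
  have e : g - 1 = -w := by rw [← hgw]; ring
  rw [e]
  rw [mem_LLp] at hw
  rcases hw x with h0 | h1
  · left; rw [h0, neg_zero]
  · right
    rw [Finsupp.sub_apply, hD2', hD1 x hx, max_self, CS_mem hx] at h1
    rw [x.ord_neg]
    omega

theorem GG_eq {S : Finset (Place k K)} {N : ℕ} {D1 : Place k K →₀ ℤ} (hD1 : ∀ x ∈ S, D1 x = 0)
    {g0 : K} (hg0 : g0 ∈ GG S N D1) :
    GG S N D1 = (fun w => g0 + w) '' (LLp (D1 - CS S N) : Set K) := by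
  ext g
  simp only [Set.mem_image, SetLike.mem_coe]
  constructor
  · rintro ⟨h1, h2⟩
    refine ⟨g - g0, ?_, by ring⟩
    rw [mem_LLp]
    intro P
    have a1 := mem_LLp.mp (Submodule.sub_mem _ h1 hg0.1) P
    by_cases hP : P ∈ S
    · have b1 : g - 1 = 0 ∨ (N : ℤ) + 1 ≤ P.ord (g - 1) := by
        rcases h2 P hP with h | h
        · exact Or.inl h
        · right; omega
      have b2 : g0 - 1 = 0 ∨ (N : ℤ) + 1 ≤ P.ord (g0 - 1) := by
        rcases hg0.2 P hP with h | h
        · exact Or.inl h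
        · right; omega
      have b3 := v_sub P b1 b2
      rw [show g - 1 - (g0 - 1) = g - g0 by ring] at b3
      rw [Finsupp.sub_apply, hD1 P hP, CS_mem hP]
      rcases b3 with h | h
      · exact Or.inl h
      · right; linarith
    · rw [Finsupp.sub_apply, CS_not_mem hP, sub_zero]
      exact a1
  · rintro ⟨w, hw, rfl⟩
    have hw' := mem_LLp.mp hw
    refine ⟨Submodule.add_mem _ hg0.1 ?_, ?_⟩
    · rw [mem_LLp]
      intro P
      rcases hw' P with h | h
      · exact Or.inl h
      · right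
        rw [Finsupp.sub_apply] at h
        by_cases hP : P ∈ S
        · rw [CS_mem hP] at h; omega
        · rw [CS_not_mem hP] at h; linarith
    · intro x hx
      have b1 : w = 0 ∨ (N : ℤ) + 1 ≤ x.ord w := by
        rcases hw' x with h | h
        · exact Or.inl h
        · right
          rw [Finsupp.sub_apply, hD1 x hx, CS_mem hx] at h
          linarith
      have b2 : g0 - 1 = 0 ∨ (N : ℤ) + 1 ≤ x.ord (g0 - 1) := by
        rcases hg0.2 x hx with h | h
        · exact Or.inl h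
        · right; omega
      have b3 := v_add x b2 b1
      rw [show g0 - 1 + w = g0 + w - 1 by ring] at b3
      rcases b3 with h | h
      · exact Or.inl h
      · right; omega

/-- the number of elements of `GG` -/
theorem ncard_GG [Finite k] {S : Finset (Place k K)} {N : ℕ}
    (hfd : ∀ D : Place k K →₀ ℤ, FiniteDimensional k (LLp D))
    {γ N0 : ℤ} (hRR : ∀ D : Place k K →₀ ℤ, N0 ≤ ddp D →
      (Module.finrank k (LLp D) : ℤ) = ddp D - γ)
    {D1 : Place k K →₀ ℤ} (hD1 : ∀ x ∈ S, D1 x = 0) (hm : N0 ≤ ddp D1 - ddp (CS S N)) :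
    (GG S N D1).Finite ∧
      (GG S N D1).ncard = (Nat.card k) ^ (ddp D1 - ddp (CS S N) - γ).toNat := by
  obtain ⟨g0, hg0⟩ := exists_GG hfd hRR hD1 hm
  have i1 := hfd (D1 - CS S N)
  have hfinW : (LLp (D1 - CS S N) : Set K).Finite := by
    have : Finite (LLp (D1 - CS S N)) := Module.finite_of_finite k
    exact Set.toFinite _
  rw [GG_eq hD1 hg0]
  refine ⟨hfinW.image _, ?_⟩
  rw [Set.ncard_image_of_injective _ (add_right_injective g0)]
  have h1 : (LLp (D1 - CS S N) : Set K).ncard = Nat.card (LLp (D1 - CS S N)) := rfl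
  rw [h1, Module.natCard_eq_pow_finrank (K := k)]
  congr 1
  have e4 := hRR (D1 - CS S N) (by rw [ddp_sub]; linarith)
  rw [ddp_sub] at e4
  omega

/-- the divisor of an element, from finiteness of its support -/
noncomputable def dv (hfs : ∀ f : K, {P : Place k K | P.ord f ≠ 0}.Finite) (f : K) :
    Place k K →₀ ℤ :=
  Finsupp.ofSupportFinite (fun P => P.ord f) (hfs f)

theorem dv_apply (hfs : ∀ f : K, {P : Place k K | P.ord f ≠ 0}.Finite) (f : K) (P : Place k K) :
    dv hfs f P = P.ord f := rfl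

theorem ddp_dv (hfs : ∀ f : K, {P : Place k K | P.ord f ≠ 0}.Finite)
    (hpf : ∀ f : K, f ≠ 0 → ∑ᶠ P : Place k K, P.ord f * P.deg = 0) {f : K} (hf : f ≠ 0) :
    ddp (dv hfs f) = 0 := by
  rw [← hpf f hf]
  unfold ddp Finsupp.sum
  symm
  apply finsum_eq_sum_of_support_subset
  intro P hP
  rw [Function.mem_support] at hP
  rw [Finset.mem_coe, Finsupp.mem_support_iff, dv_apply]
  intro h
  apply hP
  rw [h, zero_mul]

variable {S : Finset (Place k K)}

/-- effective divisors off `S` as divisors -/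
noncomputable def emb (D : {x : Place k K // x ∉ S} →₀ ℕ) : Place k K →₀ ℤ :=
  (D.mapRange (fun n : ℕ => (n : ℤ)) (by simp)).embDomain (Function.Embedding.subtype _)

theorem emb_apply (D : {x : Place k K // x ∉ S} →₀ ℕ) (x : {x : Place k K // x ∉ S}) :
    emb D x.1 = D x := by
  unfold emb
  have h := Finsupp.embDomain_apply_self (Function.Embedding.subtype (fun x : Place k K => x ∉ S))
    (D.mapRange (fun n : ℕ => (n : ℤ)) (by simp)) x
  simpa using h

theorem emb_mem (D : {x : Place k K // x ∉ S} →₀ ℕ) {x : Place k K} (hx : x ∈ S) :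
    emb D x = 0 := by
  unfold emb
  apply Finsupp.embDomain_of_notMem_range
  rintro ⟨y, hy⟩
  apply y.2
  have : y.1 = x := hy
  rw [this]
  exact hx

/-- the degree -/
noncomputable def dg (D : {x : Place k K // x ∉ S} →₀ ℕ) : ℕ := D.sum fun x j => j * x.1.deg

theorem ddp_emb (D : {x : Place k K // x ∉ S} →₀ ℕ) : ddp (emb D) = (dg D : ℤ) := by
  unfold ddp emb dg
  rw [Finsupp.sum_embDomain, Finsupp.sum_mapRange_index (by intro a; simp)]
  unfold Finsupp.sum
  push_cast
  rfl

/-- the divisors equivalent to `D1` in the ray class group -/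
def TT (S : Finset (Place k K)) (N : ℕ) (D1 : Place k K →₀ ℤ) :
    Set ({x : Place k K // x ∉ S} →₀ ℕ) :=
  {D' | ∃ h, HN S N h ∧ ∀ x : {x : Place k K // x ∉ S}, (D' x : ℤ) = D1 x.1 + x.1.ord (1 + h)}

theorem TT_emb (hfs : ∀ f : K, {P : Place k K | P.ord f ≠ 0}.Finite) {N : ℕ}
    {D1 : Place k K →₀ ℤ} (hD1 : ∀ x ∈ S, D1 x = 0) {D' : {x : Place k K // x ∉ S} →₀ ℕ} {h : K}
    (hh : HN S N h)
    (hx : ∀ x : {x : Place k K // x ∉ S}, (D' x : ℤ) = D1 x.1 + x.1.ord (1 + h)) :
    emb D' = D1 + dv hfs (1 + h) := by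
  ext P
  rw [Finsupp.add_apply, dv_apply]
  by_cases hP : P ∈ S
  · rw [emb_mem _ hP, hD1 P hP, (hh.ord_one_add hP).2, add_zero]
  · have h1 := emb_apply D' ⟨P, hP⟩
    simp only at h1
    rw [h1]
    exact hx ⟨P, hP⟩

theorem ncard_TT [Finite k] (hS : S.Nonempty) {N : ℕ}
    (hfs : ∀ f : K, {P : Place k K | P.ord f ≠ 0}.Finite) (hdeg : ∀ P : Place k K, 0 < P.deg)
    (hpf : ∀ f : K, f ≠ 0 → ∑ᶠ P : Place k K, P.ord f * P.deg = 0)
    (hfd : ∀ D : Place k K →₀ ℤ, FiniteDimensional k (LLp D))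
    {γ N0 : ℤ} (hRR : ∀ D : Place k K →₀ ℤ, N0 ≤ ddp D →
      (Module.finrank k (LLp D) : ℤ) = ddp D - γ)
    {D1 : Place k K →₀ ℤ} (hD1 : ∀ x ∈ S, D1 x = 0) (hm : N0 ≤ ddp D1 - ddp (CS S N)) :
    (TT S N D1).Finite ∧
      (TT S N D1).ncard = (Nat.card k) ^ (ddp D1 - ddp (CS S N) - γ).toNat := by
  obtain ⟨x0, hx0⟩ := hS
  obtain ⟨hfin, hcard⟩ := ncard_GG hfd hRR hD1 hm
  have hg1 : ∀ g ∈ GG S N D1, g ≠ 0 ∧ ∀ x ∈ S, x.ord g = 0 := by
    intro g hg
    have e : 1 + (g - 1) = g := by ring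
    refine ⟨?_, fun x hx => ?_⟩
    · have := (hg.2.ord_one_add hx0).1
      rwa [e] at this
    · have := (hg.2.ord_one_add hx).2
      rwa [e] at this
  let Φ : K → ({x : Place k K // x ∉ S} →₀ ℕ) := fun g =>
    Finsupp.ofSupportFinite (fun x : {x : Place k K // x ∉ S} => (D1 x.1 + x.1.ord g).toNat) (by
      have h1 : {P : Place k K | D1 P + P.ord g ≠ 0}.Finite := by
        apply (D1.hasFiniteSupport.union (hfs g)).subset
        intro P hP
        rw [Set.mem_ofPred_eq] at hP
        rw [Set.mem_union, Function.mem_support, Set.mem_ofPred_eq]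
        by_contra hc
        push Not at hc
        apply hP
        rw [hc.1, hc.2, add_zero]
      have h2 := h1.preimage (f := fun x : {x : Place k K // x ∉ S} => x.1)
        (Subtype.val_injective.injOn)
      apply h2.subset
      intro x hx
      rw [Function.mem_support] at hx
      rw [Set.mem_preimage, Set.mem_ofPred_eq]
      intro h0
      apply hx
      rw [h0]
      rfl)
  have hΦ : ∀ g ∈ GG S N D1, ∀ x : {x : Place k K // x ∉ S},
      (Φ g x : ℤ) = D1 x.1 + x.1.ord g := by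
    intro g hg x
    have h1 := (mem_LLp.mp hg.1 x.1).resolve_left (hg1 g hg).1
    have h2 : Φ g x = (D1 x.1 + x.1.ord g).toNat := rfl
    rw [h2, Int.toNat_of_nonneg (by linarith)]
  have hinj : Set.InjOn Φ (GG S N D1) := by
    intro g hg g' hg' he
    have hord : ∀ x : Place k K, x.ord g = x.ord g' := by
      intro x
      by_cases hx : x ∈ S
      · rw [(hg1 g hg).2 x hx, (hg1 g' hg').2 x hx]
      · have h1 := hΦ g hg ⟨x, hx⟩
        have h2 := hΦ g' hg' ⟨x, hx⟩
        rw [he] at h1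
        simp only at h1 h2
        linarith
    by_contra hne
    have hd : g - g' ≠ 0 := sub_ne_zero.mpr hne
    set u : K := (g - g') / g' with hu
    have hg'0 := (hg1 g' hg').1
    have hg0 := (hg1 g hg).1
    have hu0 : u ≠ 0 := div_ne_zero hd hg'0
    have hnn : ∀ x : Place k K, 0 ≤ x.ord u := by
      intro x
      rw [hu, x.ord_div hd hg'0]
      have := x.ord_sub hg0 hg'0 hd
      rw [hord x, min_self] at this
      linarith
    have hpos : 0 < x0.ord u := by
      rw [hu, x0.ord_div hd hg'0, (hg1 g' hg').2 x0 hx0]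
      have b1 : g - 1 = 0 ∨ (N : ℤ) + 1 ≤ x0.ord (g - 1) := by
        rcases hg.2 x0 hx0 with h | h
        · exact Or.inl h
        · right; omega
      have b2 : g' - 1 = 0 ∨ (N : ℤ) + 1 ≤ x0.ord (g' - 1) := by
        rcases hg'.2 x0 hx0 with h | h
        · exact Or.inl h
        · right; omega
      have b3 := v_sub x0 b1 b2
      rw [show g - 1 - (g' - 1) = g - g' by ring] at b3
      have b4 := b3.resolve_left hd
      omega
    have h0 := ddp_dv hfs hpf hu0
    have h1 : (x0.ord u) * x0.deg ≤ ddp (dv hfs u) := by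
      unfold ddp Finsupp.sum
      have hmem : x0 ∈ (dv hfs u).support := by
        rw [Finsupp.mem_support_iff, dv_apply]
        exact hpos.ne'
      have := Finset.single_le_sum (f := fun P : Place k K => dv hfs u P * (P.deg : ℤ))
        (fun P _ => mul_nonneg (by rw [dv_apply]; exact hnn P) (by positivity)) hmem
      exact this
    have h2 : 0 < (x0.ord u) * x0.deg := mul_pos hpos (by exact_mod_cast hdeg x0)
    linarith
  have himg : TT S N D1 = Φ '' (GG S N D1) := by
    ext D'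
    constructor
    · rintro ⟨h, hh, hx⟩
      have hne := (hh.ord_one_add hx0).1
      have hgG : 1 + h ∈ GG S N D1 := by
        refine ⟨?_, ?_⟩
        · rw [mem_LLp]
          intro P
          right
          by_cases hP : P ∈ S
          · rw [(hh.ord_one_add hP).2, hD1 P hP, neg_zero]
          · have h1 := hx ⟨P, hP⟩
            simp only at h1
            have h2 : (0 : ℤ) ≤ (D' ⟨P, hP⟩ : ℤ) := Int.natCast_nonneg _
            linarith
        · rw [show 1 + h - 1 = h by ring]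
          exact hh
      refine ⟨1 + h, hgG, ?_⟩
      ext x
      have h1 := hΦ (1 + h) hgG x
      have h2 := hx x
      have h3 : ((Φ (1 + h) x : ℕ) : ℤ) = (D' x : ℤ) := by rw [h1, h2]
      exact_mod_cast h3
    · rintro ⟨g, hg, rfl⟩
      refine ⟨g - 1, hg.2, fun x => ?_⟩
      rw [hΦ g hg x, show 1 + (g - 1) = g by ring]
  rw [himg]
  refine ⟨hfin.image _, ?_⟩
  rw [Set.InjOn.ncard_image hinj, hcard]

/-- finiteness of the set of effective divisors of given degree -/
theorem finite_Em (hdeg : ∀ P : Place k K, 0 < P.deg)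
    (hfin : ∀ m : ℕ, {P : Place k K | P.deg ≤ m}.Finite) (m : ℕ) :
    {D : {x : Place k K // x ∉ S} →₀ ℕ | dg D = m}.Finite := by
  have h1 : {x : {x : Place k K // x ∉ S} | x.1.deg ≤ m}.Finite :=
    (hfin m).preimage (f := fun x : {x : Place k K // x ∉ S} => x.1)
      (Subtype.val_injective.injOn)
  let b : {x : Place k K // x ∉ S} →₀ ℕ :=
    Finsupp.onFinset h1.toFinset (fun x => if x.1.deg ≤ m then m else 0) (by
      intro x hx
      by_contra hc
      rw [Set.Finite.mem_toFinset, Set.mem_ofPred_eq] at hc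
      simp [hc] at hx)
  apply (Set.finite_Iic b).subset
  intro D hD
  rw [Set.mem_ofPred_eq] at hD
  rw [Set.mem_Iic]
  intro x
  by_cases hx : D x = 0
  · rw [hx]; exact Nat.zero_le _
  · have hle : D x * x.1.deg ≤ m := by
      rw [← hD]
      unfold dg Finsupp.sum
      exact Finset.single_le_sum (f := fun x : {x : Place k K // x ∉ S} => D x * x.1.deg)
        (fun _ _ => Nat.zero_le _) (Finsupp.mem_support_iff.mpr hx)
    have h2 := hdeg x.1
    have h3 : D x ≤ m := (Nat.le_mul_of_pos_right _ h2).trans hle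
    have h4 : x.1.deg ≤ m := (Nat.le_mul_of_pos_left _ (Nat.pos_of_ne_zero hx)).trans hle
    show D x ≤ b x
    simp only [b, Finsupp.onFinset_apply, h4, if_true]
    exact h3

/-- the value of the character on a divisor -/
noncomputable def chi {R : Type} [Field R] (c : Place k K → Rˣ) (F : Place k K →₀ ℤ) : Rˣ :=
  F.prod fun x j => c x ^ j

theorem chi_add {R : Type} [Field R] (c : Place k K → Rˣ) (F G : Place k K →₀ ℤ) :
    chi c (F + G) = chi c F * chi c G := by
  unfold chi
  apply Finsupp.prod_add_index'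
  · intro a; exact zpow_zero _
  · intro a b₁ b₂; exact zpow_add _ _ _

theorem chi_emb {R : Type} [Field R] (c : Place k K → Rˣ) (D : {x : Place k K // x ∉ S} →₀ ℕ) :
    ((chi c (emb D) : Rˣ) : R) = D.prod fun x j => ((c x.1 : Rˣ) : R) ^ j := by
  unfold chi emb
  rw [Finsupp.prod_embDomain, Finsupp.prod_mapRange_index (by intro a; exact zpow_zero _)]
  unfold Finsupp.prod
  rw [Units.coe_prod]
  apply Finset.prod_congr rfl
  intro x _
  show (((c x.1 ^ ((D x : ℕ) : ℤ) : Rˣ)) : R) = ((c x.1 : Rˣ) : R) ^ (D x)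
  rw [zpow_natCast, Units.val_pow_eq_pow_val]

theorem chi_dv {R : Type} [Field R] (c : Place k K → Rˣ)
    (hfs : ∀ f : K, {P : Place k K | P.ord f ≠ 0}.Finite) (f : K) :
    chi c (dv hfs f) = ∏ᶠ x : Place k K, c x ^ x.ord f := by
  unfold chi Finsupp.prod
  symm
  apply finprod_eq_prod_of_mulSupport_subset
  intro P hP
  rw [Function.mem_mulSupport] at hP
  rw [Finset.mem_coe, Finsupp.mem_support_iff, dv_apply]
  intro h
  apply hP
  rw [h, zpow_zero]

theorem TT_symm (hS : S.Nonempty) {N : ℕ} {B : Place k K →₀ ℤ}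
    {D D' : {x : Place k K // x ∉ S} →₀ ℕ} (h : D' ∈ TT S N (emb D + B)) :
    D ∈ TT S N (emb D' + -B) := by
  obtain ⟨x0, hx0⟩ := hS
  obtain ⟨h, hh, hx⟩ := h
  have hne := (hh.ord_one_add hx0).1
  refine ⟨(1 + h)⁻¹ - 1, hh.inv hne, fun x => ?_⟩
  have h1 := hx x
  rw [Finsupp.add_apply, emb_apply] at h1
  rw [show 1 + ((1 + h)⁻¹ - 1) = (1 + h)⁻¹ by ring, x.1.ord_inv, Finsupp.add_apply, emb_apply,
    Finsupp.neg_apply]
  linarith

theorem taskVanishAsm : TaskVanishAsm := by
  intro hRRt k K R _ _ _ _ _ _ _ S hS c N hreg hB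
  obtain ⟨hfs, hdeg, hpf, hfd, hfin, γ, N0, hRR⟩ := hRRt k K
  obtain ⟨B, hB0, hBd, hB1⟩ := hB
  refine ⟨(N0 + ddp (CS S N)).toNat, fun m hm => ?_⟩
  have hm' : N0 ≤ (m : ℤ) - ddp (CS S N) := by omega
  have hEm : {D : {x : Place k K // x ∉ S} →₀ ℕ | dg D = m}.Finite := finite_Em hdeg hfin m
  have hset : {D : {x : Place k K // x ∉ S} →₀ ℕ | (D.sum fun x j => j * x.1.deg) = m} =
      {D | dg D = m} := rfl
  rw [hset, finsum_mem_eq_finite_toFinset_sum _ hEm]
  set Em := hEm.toFinset with hEmdef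
  have memEm : ∀ D, D ∈ Em ↔ dg D = m := fun D => by
    rw [hEmdef, Set.Finite.mem_toFinset, Set.mem_ofPred_eq]
  set q : ℕ := (Nat.card k) ^ ((m : ℤ) - ddp (CS S N) - γ).toNat with hq
  -- ray classes
  have key : ∀ B' : Place k K →₀ ℤ, (∀ x ∈ S, B' x = 0) → ddp B' = 0 →
      ∀ D ∈ Em, (Em.filter (fun D' => D' ∈ TT S N (emb D + B'))).card = q := by
    intro B' hB'0 hB'd D hD
    have h0 : ∀ x ∈ S, (emb D + B') x = 0 := by
      intro x hx
      rw [Finsupp.add_apply, emb_mem _ hx, hB'0 x hx, add_zero]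
    have hd : ddp (emb D + B') = (m : ℤ) := by
      rw [ddp_add, ddp_emb, (memEm D).mp hD, hB'd, add_zero]
    obtain ⟨hf, hc⟩ := ncard_TT hS hfs hdeg hpf hfd hRR h0 (by rw [hd]; exact hm')
    rw [hd] at hc
    rw [hq, ← hc, ← Set.ncard_coe_finset]
    congr 1
    ext D'
    rw [Finset.mem_coe, Finset.mem_filter, memEm]
    constructor
    · rintro ⟨_, h⟩
      exact h
    · intro h
      refine ⟨?_, h⟩
      obtain ⟨y, hy, hx⟩ := h
      have e := TT_emb hfs h0 hy hx
      obtain ⟨x0, hx0⟩ := hS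
      have e2 : ddp (emb D') = (m : ℤ) := by
        rw [e, ddp_add, hd, ddp_dv hfs hpf (hy.ord_one_add hx0).1, add_zero]
      rw [ddp_emb] at e2
      exact_mod_cast e2
  have hchi : ∀ D ∈ Em, ∀ D' ∈ Em, D' ∈ TT S N (emb D + B) →
      ((chi c (emb D') : Rˣ) : R) = ((chi c (emb D) : Rˣ) : R) * ((chi c B : Rˣ) : R) := by
    intro D _ D' _ h
    have h0 : ∀ x ∈ S, (emb D + B) x = 0 := by
      intro x hx
      rw [Finsupp.add_apply, emb_mem _ hx, hB0 x hx, add_zero]
    obtain ⟨y, hy, hx⟩ := h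
    have e := TT_emb hfs h0 hy hx
    have e2 := hreg y hy
    rw [e, chi_add, chi_add, chi_dv, e2, mul_one, Units.val_mul]
  set SM : R := ∑ D ∈ Em, ((chi c (emb D) : Rˣ) : R) with hSM
  have hgoal : ∑ D ∈ Em, (D.prod fun x j => ((c x.1 : Rˣ) : R) ^ j) = SM := by
    apply Finset.sum_congr rfl
    intro D _
    rw [chi_emb]
  rw [hgoal]
  have hd1 : ∑ D ∈ Em, ∑ D' ∈ Em.filter (fun D' => D' ∈ TT S N (emb D + B)),
      ((chi c (emb D') : Rˣ) : R) = (q : R) * ((chi c B : Rˣ) : R) * SM := by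
    rw [hSM, Finset.mul_sum]
    apply Finset.sum_congr rfl
    intro D hD
    have h1 : ∑ D' ∈ Em.filter (fun D' => D' ∈ TT S N (emb D + B)),
        ((chi c (emb D') : Rˣ) : R) = ∑ D' ∈ Em.filter (fun D' => D' ∈ TT S N (emb D + B)),
          ((chi c (emb D) : Rˣ) : R) * ((chi c B : Rˣ) : R) := by
      apply Finset.sum_congr rfl
      intro D' hD'
      rw [Finset.mem_filter] at hD'
      exact hchi D hD D' hD'.1 hD'.2
    rw [h1, Finset.sum_const, key B hB0 hBd D hD, nsmul_eq_mul]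
    ring
  have hd2 : ∑ D ∈ Em, ∑ D' ∈ Em.filter (fun D' => D' ∈ TT S N (emb D + B)),
      ((chi c (emb D') : Rˣ) : R) = (q : R) * SM := by
    have h1 : ∑ D ∈ Em, ∑ D' ∈ Em.filter (fun D' => D' ∈ TT S N (emb D + B)),
        ((chi c (emb D') : Rˣ) : R) =
        ∑ D' ∈ Em, ∑ D ∈ Em.filter (fun D => D ∈ TT S N (emb D' + -B)),
          ((chi c (emb D') : Rˣ) : R) := by
      simp only [Finset.sum_filter]
      rw [Finset.sum_comm]
      apply Finset.sum_congr rfl
      intro D' _
      apply Finset.sum_congr rfl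
      intro D _
      have hiff : D' ∈ TT S N (emb D + B) ↔ D ∈ TT S N (emb D' + -B) := by
        constructor
        · exact TT_symm hS
        · intro h
          have := TT_symm hS h
          rwa [neg_neg] at this
      by_cases h : D' ∈ TT S N (emb D + B)
      · rw [if_pos h, if_pos (hiff.mp h)]
      · rw [if_neg h, if_neg (fun h' => h (hiff.mpr h'))]
    rw [h1, hSM, Finset.mul_sum]
    apply Finset.sum_congr rfl
    intro D' hD'
    rw [Finset.sum_const, key (-B) (fun x hx => by rw [Finsupp.neg_apply, hB0 x hx, neg_zero])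
      (by rw [ddp_neg, hBd, neg_zero]) D' hD', nsmul_eq_mul]
  have hq0 : (q : R) ≠ 0 := by
    rw [Nat.cast_ne_zero, hq]
    exact pow_ne_zero _ Nat.card_pos.ne'
  have hB1' : ((chi c B : Rˣ) : R) ≠ 1 := by
    intro h
    apply hB1
    have : chi c B = 1 := Units.ext (by rw [h]; rfl)
    exact this
  have hfin2 : (q : R) * (((chi c B : Rˣ) : R) - 1) * SM = 0 := by
    have : (q : R) * (((chi c B : Rˣ) : R) - 1) * SM =
        (q : R) * ((chi c B : Rˣ) : R) * SM - (q : R) * SM := by ring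
    rw [this, ← hd1, ← hd2, sub_self]
  rcases mul_eq_zero.mp hfin2 with h | h
  · rcases mul_eq_zero.mp h with h' | h'
    · exact absurd h' hq0
    · exact absurd (sub_eq_zero.mp h') hB1'
  · exact h

end H138ZP
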